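import Pool.Agent.Work.MP_49ac7c_an.Cart4

/-!
A scale-invariant blow-up solution of the Boussinesq system in the corner `|y| < x` of opening
angle `π / 2`, in the original (Cartesian) variables, with explicit initial data: the fluid is
at rest and `ρ = -(x² - y²)² / x³` at time `0`, the maximal time is at most `37`.
-/

set_option autoImplicit false

namespace Pool.Agent.Results.MP_49ac7c_an.CartesianBlowup

open Set Filter Topology
open Pool.Agent.Work.MP_49ac7c_an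
open scoped ContDiff

theorem result :
    ∃ (T : ℝ) (v₁ v₂ p ρ : ℝ → ℝ → ℝ → ℝ), 0 < T ∧ T ≤ 37 ∧
      -- `v`, `ρ` are smooth up to the boundary (away from the vertex), `p` is smooth inside
      ContDiffOn ℝ ((⊤ : ℕ∞) : WithTop ℕ∞) (fun q : ℝ × ℝ × ℝ => v₁ q.1 q.2.1 q.2.2)
        {q | 0 < q.1 ∧ |q.2.1| ≤ q.1 ∧ q.2.2 ∈ Set.Ico 0 T} ∧
      ContDiffOn ℝ ((⊤ : ℕ∞) : WithTop ℕ∞) (fun q : ℝ × ℝ × ℝ => v₂ q.1 q.2.1 q.2.2)
        {q | 0 < q.1 ∧ |q.2.1| ≤ q.1 ∧ q.2.2 ∈ Set.Ico 0 T} ∧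
      ContDiffOn ℝ ((⊤ : ℕ∞) : WithTop ℕ∞) (fun q : ℝ × ℝ × ℝ => ρ q.1 q.2.1 q.2.2)
        {q | 0 < q.1 ∧ |q.2.1| ≤ q.1 ∧ q.2.2 ∈ Set.Ico 0 T} ∧
      ContDiffOn ℝ ((⊤ : ℕ∞) : WithTop ℕ∞) (fun q : ℝ × ℝ × ℝ => p q.1 q.2.1 q.2.2)
        {q | |q.2.1| < q.1 ∧ q.2.2 ∈ Set.Ioo 0 T} ∧
      -- homogeneity of degree 1
      (∀ t ∈ Set.Ico 0 T, ∀ x y c : ℝ, |y| ≤ x → 0 < c →
        v₁ (c * x) (c * y) t = c * v₁ x y t ∧ v₂ (c * x) (c * y) t = c * v₂ x y t ∧
        ρ (c * x) (c * y) t = c * ρ x y t) ∧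
      -- the Boussinesq system
      (∀ t ∈ Set.Ioo 0 T, ∀ x y : ℝ, |y| < x →
        deriv (fun s => v₁ x y s) t + v₁ x y t * deriv (fun a => v₁ a y t) x
          + v₂ x y t * deriv (fun b => v₁ x b t) y + deriv (fun a => p a y t) x = ρ x y t ∧
        deriv (fun s => v₂ x y s) t + v₁ x y t * deriv (fun a => v₂ a y t) x
          + v₂ x y t * deriv (fun b => v₂ x b t) y + deriv (fun b => p x b t) y = 0 ∧
        deriv (fun a => v₁ a y t) x + deriv (fun b => v₂ x b t) y = 0 ∧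
        deriv (fun s => ρ x y s) t + v₁ x y t * deriv (fun a => ρ a y t) x
          + v₂ x y t * deriv (fun b => ρ x b t) y = 0) ∧
      -- no penetration
      (∀ t ∈ Set.Ico 0 T, ∀ x : ℝ, 0 ≤ x →
        v₂ x x t - v₁ x x t = 0 ∧ v₂ x (-x) t + v₁ x (-x) t = 0) ∧
      -- the angular velocity on the unit arc is orthogonal to `cos 2θ`
      (∀ t ∈ Set.Ico 0 T,
        ∫ θ in (-(Real.pi / 4))..(Real.pi / 4),
          (Real.cos θ * v₂ (Real.cos θ) (Real.sin θ) t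
            - Real.sin θ * v₁ (Real.cos θ) (Real.sin θ) t) * Real.cos (2 * θ) = 0) ∧
      -- the vorticity and the density gradient vanish on the boundary
      (∀ t ∈ Set.Ico 0 T, ∀ x y : ℝ, 0 < x → |y| = x →
        Filter.Tendsto (fun z : ℝ × ℝ => deriv (fun a => v₂ a z.2 t) z.1
          - deriv (fun b => v₁ z.1 b t) z.2) (nhdsWithin (x, y) {z | |z.2| < z.1}) (nhds 0) ∧
        Filter.Tendsto (fun z : ℝ × ℝ => deriv (fun a => ρ a z.2 t) z.1)
          (nhdsWithin (x, y) {z | |z.2| < z.1}) (nhds 0) ∧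
        Filter.Tendsto (fun z : ℝ × ℝ => deriv (fun b => ρ z.1 b t) z.2)
          (nhdsWithin (x, y) {z | |z.2| < z.1}) (nhds 0)) ∧
      -- the initial values
      (∀ x y : ℝ, 0 < x → |y| ≤ x →
        v₁ x y 0 = 0 ∧ v₂ x y 0 = 0 ∧ ρ x y 0 = -(x ^ 2 - y ^ 2) ^ 2 / x ^ 3) ∧
      -- blow-up
      (∀ M : ℝ, ∃ t₀ ∈ Set.Ico 0 T, ∀ t ∈ Set.Ioo t₀ T, ∃ x y : ℝ, |y| < x ∧
        M < |deriv (fun a => v₂ a y t) x - deriv (fun b => v₁ x b t) y|
          + Real.sqrt ((deriv (fun a => ρ a y t) x) ^ 2 + (deriv (fun b => ρ x b t) y) ^ 2)) := by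
  obtain ⟨T, u, hT, h0, h, hblow⟩ := exists_solution
  have hs := sys h h0
  have mI : ∀ {x y : ℝ}, |y| ≤ x → 0 < x → y / x ∈ I := fun h1 h2 => div_mem h2 h1
  refine ⟨T, Cart.V1 (KY u), Cart.V2 (HY u) (KY u), Cart.PP (Cart.Pr (HY u) (KY u) (GY u)),
    Cart.Rh (GY u), hT, ?_, ?_, ?_, ?_, ?_, ?_, ?_, ?_, ?_, ?_, ?_, ?_⟩
  · by_contra hcon
    exact no_sol_37 u h0 (h 37 (not_le.1 hcon))
  · exact ((contDiff_fst.contDiffOn).mul (smooth_cart (KY_smooth h h0))).neg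
  · exact ((contDiffOn_const.mul contDiff_fst.contDiffOn).mul (smooth_cart (HY_smooth h h0))).sub
      ((contDiff_fst.comp contDiff_snd).contDiffOn.mul (smooth_cart (KY_smooth h h0)))
  · exact (contDiff_fst.contDiffOn).mul (smooth_cart (GY_smooth h h0))
  · exact (contDiff_fst.contDiffOn.pow 2).mul (smooth_cart' hs.sP)
  · intro t ht x y c hxy hc
    have e : c * y / (c * x) = y / x := mul_div_mul_left y x hc.ne'
    unfold Cart.V1 Cart.V2 Cart.Rh
    rw [e]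
    refine ⟨by ring, by ring, by ring⟩
  · intro t ht x y hxy
    exact ⟨hs.mom1 hxy ht, hs.mom2 hxy ht, hs.dvg hxy ht, hs.den hxy ht⟩
  · intro t ht x hx
    have hG := good_at h h0 ht
    rcases hx.eq_or_lt with rfl | hx
    · unfold Cart.V1 Cart.V2
      simp
    · have e1 : HY u (1, t) = 0 := by
        show Eu (u t) (Hh (u t)) 1 = 0
        unfold Eu
        rw [hG.Xi_one, Hh_one hG]
      have e2 : HY u (-1, t) = 0 := by
        show Eu (u t) (Hh (u t)) (-1) = 0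
        rw [Eu_odd hG (Rf_Hh hG) one_mem_I]
        unfold Eu
        rw [hG.Xi_one, Hh_one hG, neg_zero]
      unfold Cart.V1 Cart.V2
      rw [div_self hx.ne', neg_div, div_self hx.ne', e1, e2]
      constructor <;> ring
  · intro t ht
    have hG := good_at h h0 ht
    have h1 := Ps_int hG
    have h2 : (∫ θ in (-(Real.pi / 4))..(Real.pi / 4),
        (Real.cos θ * Cart.V2 (HY u) (KY u) (Real.cos θ) (Real.sin θ) t
            - Real.sin θ * Cart.V1 (KY u) (Real.cos θ) (Real.sin θ) t) * Real.cos (2 * θ)) =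
        ∫ θ in (-(Real.pi / 4))..(Real.pi / 4), 2 * (Ps u θ t * Real.cos (2 * θ)) := by
      refine intervalIntegral.integral_congr fun θ _ => ?_
      unfold Cart.V1 Cart.V2 Ps HY KY
      rw [Real.tan_eq_sin_div_cos]
      ring
    rw [h2, intervalIntegral.integral_const_mul, h1, mul_zero]
  · intro t ht x y hx hy
    have hG := good_at h h0 ht
    have hw1 : ev (ww (u t)) 1 = 0 := ww_pm h h0 ht one_mem_I (by norm_num)
    have hw2 : ev (ww (u t)) (-1) = 0 := ww_pm h h0 ht neg_one_mem_I (by norm_num)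
    have l1 := lim_bd h h0 ht hw1 hw2 hx hy
    have l2 := lim_bd h h0 ht (ev_q_pm (u t)).1 (ev_q_pm (u t)).2 hx hy
    have l3 := lim_bd h h0 ht (ev_P_pm (u t)).1 (ev_P_pm (u t)).2 hx hy
    have l4 : Tendsto (fun z : ℝ × ℝ => z.2 / z.1) (𝓝[{z : ℝ × ℝ | |z.2| < z.1}] (x, y))
        (𝓝 (y / x)) :=
      (ContinuousAt.div continuousAt_snd continuousAt_fst hx.ne').continuousWithinAt
    refine ⟨?_, ?_, ?_⟩
    · have l5 := l1.neg
      rw [neg_zero] at l5
      refine l5.congr' ?_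
      filter_upwards [self_mem_nhdsWithin] with z hz
      exact (vort h h0 ht hz).symm
    · have l5 := l2.neg.sub (l4.mul l3)
      rw [neg_zero, mul_zero, sub_zero] at l5
      refine l5.congr' ?_
      filter_upwards [self_mem_nhdsWithin] with z hz
      exact (rho_x h h0 ht hz).symm
    · refine l3.congr' ?_
      filter_upwards [self_mem_nhdsWithin] with z hz
      exact (rho_y h h0 ht hz).symm
  · intro x y hx hxy
    have hG := good_uz hT h h0
    have hI := mI hxy hx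
    have e1 : KY u (y / x, 0) = 0 := by
      show Eu (u 0) (Kk (u 0)) (y / x) = 0
      rw [h0, Kk_uz]
      simp [Eu]
    have e2 : HY u (y / x, 0) = 0 := by
      show Eu (u 0) (Hh (u 0)) (y / x) = 0
      rw [h0, Hh_uz]
      simp [Eu]
    have e3 : GY u (y / x, 0) = -((1 - y / x * (y / x)) * (1 - y / x * (y / x))) := by
      show -(Eu (u 0) (q0 * sg (u 0)) (y / x)) = _
      rw [h0]
      unfold Eu
      rw [Xi_uz hG hI, sg_uz, mul_one, Good.q0_ev hI]
    unfold Cart.V1 Cart.V2 Cart.Rh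
    rw [e1, e2, e3]
    refine ⟨by ring, by ring, ?_⟩
    field_simp
  · intro M
    obtain ⟨t₀, ht₀, hM⟩ := hblow M
    refine ⟨t₀, ht₀, fun t ht => ⟨1, 0, by norm_num, ?_⟩⟩
    have ht' : t ∈ Set.Ico 0 T := ⟨ht₀.1.trans ht.1.le, ht.2⟩
    have h1 := hM t ⟨ht.1.le, ht.2⟩
    have hG := good_at h h0 ht'
    have e1 : deriv (fun a => Cart.Rh (GY u) a 0 t) 1 = -(u t).1 := by
      rw [rho_x h h0 ht' (by norm_num : |(0 : ℝ)| < 1), zero_div, zero_mul, sub_zero]
      show -(Eu (u t) (q0 * sg (u t)) 0) = _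
      unfold Eu
      rw [hG.Xi_zero, ev_mul, Good.q0_zero, ev_sg_zero]
      ring
    rw [e1]
    have h2 : |(u t).1| ≤ Real.sqrt ((-(u t).1) ^ 2 +
        (deriv (fun b => Cart.Rh (GY u) 1 b t) 0) ^ 2) := by
      refine Real.abs_le_sqrt ?_
      nlinarith [sq_nonneg (deriv (fun b => Cart.Rh (GY u) 1 b t) 0)]
    have h3 := le_abs_self (u t).1
    have h4 := abs_nonneg (deriv (fun a => Cart.V2 (HY u) (KY u) a 0 t) 1 -
      deriv (fun b => Cart.V1 (KY u) 1 b t) 0)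
    linarith

end Pool.Agent.Results.MP_49ac7c_an.CartesianBlowup
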